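import Mathlib

set_option autoImplicit false

/-!
Project RF: a finitely generated residually finite group with co-c.e. word problem which is not
isomorphic to a group of computable permutations of `ℕ` (S14339). Definitions and statements.
-/

namespace Pool.Agent.W921.RF

/-! ### The groups -/

/-- Letters: `(0, true)` is `t`, `(0, false)` its inverse, `(1, true)` is `x`, `(1, false)` its
inverse. -/
abbrev Lt : Type := Fin 2 × Bool

section rep

variable {I C : Type} [AddCommGroup I] [AddCommGroup C]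

/-- The shift by `u`. -/
def tt (C : Type) [AddCommGroup C] (u : I) : Equiv.Perm ((I → C) × C) where
  toFun z := (fun a => z.1 (a - u), z.2)
  invFun z := (fun a => z.1 (a + u), z.2)
  left_inv z := by
    refine Prod.ext (funext fun a => ?_) rfl
    show z.1 (a + u - u) = z.1 a
    rw [add_sub_cancel_right]
  right_inv z := by
    refine Prod.ext (funext fun a => ?_) rfl
    show z.1 (a - u + u) = z.1 a
    rw [sub_add_cancel]

/-- The second generator. -/
def xx (ρ : I → C) : Equiv.Perm ((I → C) × C) where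
  toFun z := (fun a => z.1 a + ρ a, z.2 + z.1 0)
  invFun z := (fun a => z.1 a - ρ a, z.2 - (z.1 0 - ρ 0))
  left_inv z := by
    refine Prod.ext (funext fun a => ?_) ?_
    · show z.1 a + ρ a - ρ a = z.1 a
      rw [add_sub_cancel_right]
    · show z.2 + z.1 0 - (z.1 0 + ρ 0 - ρ 0) = z.2
      rw [add_sub_cancel_right, add_sub_cancel_right]
  right_inv z := by
    refine Prod.ext (funext fun a => ?_) ?_
    · show z.1 a - ρ a + ρ a = z.1 a
      rw [sub_add_cancel]
    · show z.2 - (z.1 0 - ρ 0) + (z.1 0 - ρ 0) = z.2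
      rw [sub_add_cancel]

/-- The group generated by `tt u` and `xx ρ`. -/
def rep (u : I) (ρ : I → C) : FreeGroup (Fin 2) →* Equiv.Perm ((I → C) × C) :=
  FreeGroup.lift fun i => if i = 0 then tt C u else xx ρ

end rep

/-- The sign of a letter. -/
def sg (b : Bool) : ℤ := if b then 1 else -1

/-- The exponent sum of `t`. -/
def tot (w : List Lt) : ℤ := (w.map fun l => if l.1 = 0 then sg l.2 else 0).sum

/-- The occurrences of `x`: the exponent sum of `t` before the letter (started with `k`), and the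
sign. -/
def occ : ℤ → List Lt → List (ℤ × ℤ)
  | _, [] => []
  | k, l :: w => if l.1 = 0 then occ (k + sg l.2) w else (k, sg l.2) :: occ k w

/-- The coordinate in the base group. -/
def Pf (l : List (ℤ × ℤ)) (i : ℤ) : ℤ := (l.map fun o => if o.1 = i then o.2 else 0).sum

/-- The central part. -/
def Zf {C : Type} [AddCommGroup C] (ρ : ℤ → C) : List (ℤ × ℤ) → C
  | [] => 0
  | o :: l => Zf ρ l + (l.map fun o' => (o.2 * o'.2) • ρ (o.1 - o'.1)).sum

/-- EV: evaluation of words. -/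
def S_EV : Prop :=
  ∀ (I C : Type) [AddCommGroup I] [AddCommGroup C] (u : I) (ρ : I → C), ρ 0 = 0 →
    ∀ (w : List Lt) (f : I → C) (y : C), rep u ρ (FreeGroup.mk w) (f, y) =
      (fun a => f (a - tot w • u) + ((occ 0 w).map fun o => o.2 • ρ (a - o.1 • u)).sum,
        y + ((occ 0 w).map fun o => o.2 • f ((o.1 - tot w) • u)).sum +
          Zf (fun i => ρ (i • u)) (occ 0 w))

/-- TRI: criterion for triviality. -/
def S_TRI : Prop :=
  (∀ (ρ : ℤ → (ℕ →₀ ℤ)), ρ 0 = 0 → ∀ w : List Lt, rep (1 : ℤ) ρ (FreeGroup.mk w) = 1 →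
    tot w = 0 ∧ (∀ i, Pf (occ 0 w) i = 0) ∧ Zf ρ (occ 0 w) = 0) ∧
  ∀ (I C : Type) [AddCommGroup I] [AddCommGroup C] (u : I) (ρ : I → C), ρ 0 = 0 →
    ∀ (w : List Lt), tot w = 0 → (∀ i, Pf (occ 0 w) i = 0) →
      Zf (fun i => ρ (i • u)) (occ 0 w) = 0 → rep u ρ (FreeGroup.mk w) = 1

/-! ### The function `ρ` -/

/-- First special indices. -/
def ai (e : ℕ) : ℕ := 4 ^ (2 * e + 1)

/-- Second special indices. -/
def bi (e : ℕ) : ℕ := 4 ^ (2 * e + 2)

open Classical in
/-- The images of the commutators (halves). -/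
noncomputable def zet (κ : ℕ → ℕ) (d : ℕ) : ℕ →₀ ℤ :=
  if h : ∃ e, d = ai e then
    (if κ h.choose = 0 then Finsupp.single d 1 else Finsupp.single d (κ h.choose : ℤ))
  else if h : ∃ e, d = bi e then
    (if κ h.choose = 0 then 0 else Finsupp.single (ai h.choose) 1)
  else Finsupp.single d 1

/-- The odd extension. -/
noncomputable def rho (κ : ℕ → ℕ) (i : ℤ) : ℕ →₀ ℤ :=
  if 0 < i then zet κ i.toNat else if i < 0 then - zet κ (-i).toNat else 0

/-- PHI: enough homomorphisms with periodic values. -/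
def S_PHI : Prop :=
  ∀ (κ : ℕ → ℕ) (z : ℕ →₀ ℤ), z ≠ 0 → z 0 = 0 → (∀ e, z (bi e) = 0) →
    ∃ (n m : ℕ) (_ : 0 < n) (_ : 0 < m) (φ : (ℕ →₀ ℤ) →+ ZMod m) (ρ' : ZMod n → ZMod m),
      φ z ≠ 0 ∧ ρ' 0 = 0 ∧ ∀ i : ℤ, φ (rho κ i) = ρ' (i : ZMod n)

/-- RFI: the group is residually finite. -/
def S_RFI : Prop :=
  ∀ (κ : ℕ → ℕ) (g : (rep (1 : ℤ) (rho κ)).range), g ≠ 1 →
    ∃ H : Subgroup (rep (1 : ℤ) (rho κ)).range, H.index ≠ 0 ∧ g ∉ H

/-- The coefficient of `ζ d`, for `0 < d`. -/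
def cf (l : List (ℤ × ℤ)) (d : ℕ) : ℤ :=
  Zf (fun i => if i = (d : ℤ) then (1 : ℤ) else if i = -(d : ℤ) then -1 else 0) l

/-- COO: the central part in coordinates. -/
def S_COO : Prop :=
  ∀ (κ : ℕ → ℕ) (l : List (ℤ × ℤ)),
    (∀ e, Zf (rho κ) l (bi e) = 0) ∧ Zf (rho κ) l 0 = 0 ∧
    (Zf (rho κ) l ≠ 0 ↔
      (∃ d : ℕ, 0 < d ∧ (∀ e, d ≠ ai e) ∧ (∀ e, d ≠ bi e) ∧ cf l d ≠ 0) ∨
      ∃ e, (κ e = 0 ∧ cf l (ai e) ≠ 0) ∨
        (κ e ≠ 0 ∧ (κ e : ℤ) * cf l (ai e) + cf l (bi e) ≠ 0))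

/-! ### The construction -/

/-- The codes with number `e`. -/
def cod (e : ℕ) (l : Lt) : Nat.Partrec.Code :=
  Denumerable.ofNat Nat.Partrec.Code
    (if l.1 = 0 then (if l.2 then e.unpair.1.unpair.1 else e.unpair.1.unpair.2)
      else (if l.2 then e.unpair.2.unpair.1 else e.unpair.2.unpair.2))

/-- Evaluation of a word with bound `s`. -/
def evw (e s : ℕ) : List Lt → ℕ → Option ℕ
  | [], p => some p
  | l :: w, p => (evw e s w p).bind fun q => Nat.Partrec.Code.evaln s (cod e l) q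

/-- The commutator of `t^d x t^{-d}` and `x`. -/
def wd (d : ℕ) : List Lt :=
  List.replicate d (0, true) ++ [(1, true)] ++ List.replicate d (0, false) ++ [(1, true)] ++
    List.replicate d (0, true) ++ [(1, false)] ++ List.replicate d (0, false) ++ [(1, false)]

/-- A point moved by the first word and fixed by the second one is found at stage `s`. -/
def Found (e s : ℕ) : Prop :=
  ∃ p < s, (∃ q, evw e s (wd (ai e)) p = some q ∧ q ≠ p) ∧ evw e s (wd (bi e)) p = some p

open Classical in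
/-- The numbers `κ`. -/
noncomputable def kap (e : ℕ) : ℕ := if h : ∃ s, Found e s then Nat.find h + 1 else 0

/-- FOU: the search is computable. -/
def S_FOU : Prop := ComputablePred fun q : ℕ × ℕ => Found q.1 q.2

/-- CFC: the coefficients are computable (positive and negative part). -/
def S_CFC : Prop :=
  ∃ P N : List Lt → ℕ → ℕ, Computable (fun q : List Lt × ℕ => P q.1 q.2) ∧
    Computable (fun q : List Lt × ℕ => N q.1 q.2) ∧
    ∀ w d, 0 < d → cf (occ 0 w) d = (P w d : ℤ) - (N w d : ℤ)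

/-- TPC: the first two conditions are decidable. -/
def S_TPC : Prop :=
  ComputablePred fun w : List Lt => tot w = 0 ∧ ∀ i, Pf (occ 0 w) i = 0

/-- WPR: the word problem is co-c.e. -/
def S_WPR : Prop :=
  REPred fun w : List Lt => rep (1 : ℤ) (rho kap) (FreeGroup.mk w) ≠ 1

/-- WDV: the values of the commutators. -/
def S_WDV : Prop :=
  ∀ (κ : ℕ → ℕ) (e : ℕ),
    rep (1 : ℤ) (rho κ) (FreeGroup.mk (wd (ai e))) ≠ 1 ∧
    (κ e = 0 → rep (1 : ℤ) (rho κ) (FreeGroup.mk (wd (bi e))) = 1) ∧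
    (κ e ≠ 0 → rep (1 : ℤ) (rho κ) (FreeGroup.mk (wd (ai e))) =
      rep (1 : ℤ) (rho κ) (FreeGroup.mk (wd (bi e))) ^ κ e)

/-- EVW: the evaluation is correct. -/
def S_EVW : Prop :=
  ∀ f : FreeGroup (Fin 2) →* Equiv.Perm ℕ,
    (∀ g, Computable (fun n : ℕ => f g n)) → ∃ e : ℕ,
      (∀ s w p q, evw e s w p = some q → q = f (FreeGroup.mk w) p) ∧
      ∀ w p, ∃ s₀, ∀ s ≥ s₀, evw e s w p = some (f (FreeGroup.mk w) p)

/-- NOE: no embedding in the group of computable permutations. -/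
def S_NOE : Prop :=
  ¬ ∃ f : (rep (1 : ℤ) (rho kap)).range →* Equiv.Perm ℕ, Function.Injective f ∧
    ∀ g, Computable (⇑(f g) : ℕ → ℕ)

end Pool.Agent.W921.RF
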